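import Pool.Agent.R87.HS

/-!
# Homogeneous selection for colour classes of unequal sizes

For every dimension `d ≥ 1` and every constant `c > 0` the homogeneous selection theorem with the
constant `c` for (pairwise disjoint) colour classes of equal sizes, which is Pach's theorem, is
equivalent to the same statement for classes of arbitrary sizes, and also to the statement for
arbitrary weights on the points.
-/

set_option autoImplicit false

namespace Pool.Agent.Results.MP_c3eb34_co.UnequalSizes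
open Pool.Agent.R87.HS

/-- The classes `C 0, …, C d` in `ℝ^d` with the weights `w` on their points admit a homogeneous
selection with the constant `c`: there are a point `p` and subsets `D i ⊆ C i` which carry at least
the fraction `c` of the weight of `C i`, such that every transversal of the `D i` has `p` in its
convex hull. -/
def WeightedSelection (d : ℕ) (c : ℝ) (C : Fin (d + 1) → Finset (EuclideanSpace ℝ (Fin d)))
    (w : Fin (d + 1) → EuclideanSpace ℝ (Fin d) → ℝ) : Prop :=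
  ∃ (p : EuclideanSpace ℝ (Fin d)) (D : Fin (d + 1) → Finset (EuclideanSpace ℝ (Fin d))),
    (∀ i, D i ⊆ C i ∧ c * ∑ x ∈ C i, w i x ≤ ∑ x ∈ D i, w i x) ∧
    ∀ x : Fin (d + 1) → EuclideanSpace ℝ (Fin d), (∀ i, x i ∈ D i) →
      p ∈ convexHull ℝ (Set.range x)

/-- The classes `C 0, …, C d` admit a homogeneous selection with the constant `c`. -/
def Selection (d : ℕ) (c : ℝ) (C : Fin (d + 1) → Finset (EuclideanSpace ℝ (Fin d))) : Prop :=
  ∃ (p : EuclideanSpace ℝ (Fin d)) (D : Fin (d + 1) → Finset (EuclideanSpace ℝ (Fin d))),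
    (∀ i, D i ⊆ C i ∧ c * ((C i).card : ℝ) ≤ ((D i).card : ℝ)) ∧
    ∀ x : Fin (d + 1) → EuclideanSpace ℝ (Fin d), (∀ i, x i ∈ D i) →
      p ∈ convexHull ℝ (Set.range x)

/-- Pach's theorem in dimension `d` with the constant `c`: pairwise disjoint classes of the same
size `n ≥ 1`. -/
def EqualSizes (d : ℕ) (c : ℝ) : Prop :=
  ∀ (n : ℕ) (C : Fin (d + 1) → Finset (EuclideanSpace ℝ (Fin d))), 1 ≤ n →
    (∀ i, (C i).card = n) → (∀ i j, i ≠ j → Disjoint (C i) (C j)) → Selection d c C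

/-- The statement of Q1 in dimension `d` with the constant `c`: nonempty classes of arbitrary
sizes. -/
def ArbitrarySizes (d : ℕ) (c : ℝ) : Prop :=
  ∀ C : Fin (d + 1) → Finset (EuclideanSpace ℝ (Fin d)), (∀ i, (C i).Nonempty) → Selection d c C

/-- The same for arbitrary nonnegative weights with positive total weight in every class. -/
def ArbitraryWeights (d : ℕ) (c : ℝ) : Prop :=
  ∀ (C : Fin (d + 1) → Finset (EuclideanSpace ℝ (Fin d)))
    (w : Fin (d + 1) → EuclideanSpace ℝ (Fin d) → ℝ), (∀ i, ∀ x ∈ C i, 0 ≤ w i x) →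
    (∀ i, 0 < ∑ x ∈ C i, w i x) → WeightedSelection d c C w

theorem result :
    (∀ d : ℕ, 1 ≤ d → ∀ c : ℝ, 0 < c →
      (EqualSizes d c ↔ ArbitrarySizes d c) ∧ (ArbitrarySizes d c ↔ ArbitraryWeights d c)) ∧
    ((∀ d : ℕ, 1 ≤ d → ∃ c : ℝ, 0 < c ∧ EqualSizes d c) →
      ∀ d : ℕ, 1 ≤ d → ∃ c : ℝ, 0 < c ∧ ArbitrarySizes d c) := by
  have h1 : ∀ d : ℕ, 1 ≤ d → ∀ c : ℝ, 0 < c → EqualSizes d c → ArbitraryWeights d c := by
    intro d hd c hc hE C w hw hw0
    refine w_sel hd hc ?_ C w hw hw0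
    intro n C' hn hC' hdis
    obtain ⟨p, D, hD, hp⟩ := hE n C' hn hC' hdis
    exact ⟨p, D, fun i => ⟨(hD i).1, by rw [← hC' i]; exact (hD i).2⟩, hp⟩
  have h2 : ∀ d : ℕ, ∀ c : ℝ, ArbitraryWeights d c → ArbitrarySizes d c := by
    intro d c hW C hC
    obtain ⟨p, D, hD, hp⟩ := hW C (fun _ _ => 1) (fun _ _ _ => zero_le_one) (fun i => by
      simpa using hC i)
    exact ⟨p, D, fun i => ⟨(hD i).1, by simpa using (hD i).2⟩, hp⟩
  have h3 : ∀ d : ℕ, ∀ c : ℝ, ArbitrarySizes d c → EqualSizes d c := by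
    intro d c hA n C hn hC _
    exact hA C fun i => Finset.card_pos.1 (by rw [hC i]; exact hn)
  refine ⟨fun d hd c hc => ⟨⟨fun h => h2 d c (h1 d hd c hc h), h3 d c⟩,
    ⟨fun h => h1 d hd c hc (h3 d c h), h2 d c⟩⟩, ?_⟩
  intro h d hd
  obtain ⟨c, hc, hE⟩ := h d hd
  exact ⟨c, hc, h2 d c (h1 d hd c hc hE)⟩

end Pool.Agent.Results.MP_c3eb34_co.UnequalSizes
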